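import Pool.Agent.Lib.MP_acafa7_al.MS.Iface2
import Pool.Agent.Lib.MP_acafa7_al.MS.H64.HomB

namespace MSG.H94

open Classical

section

variable {V : Type} {G : SimpleGraph V}

theorem adj_pow {a : Equiv.Perm V} (h : ∀ x y, G.Adj (a x) (a y) ↔ G.Adj x y) (n : ℕ) :
    ∀ x y, G.Adj ((a ^ n) x) ((a ^ n) y) ↔ G.Adj x y := by
  induction n with
  | zero => intro x y; simp
  | succ n ih =>
    intro x y
    rw [pow_succ', Equiv.Perm.mul_apply, Equiv.Perm.mul_apply, h, ih]

theorem adj_zpow {a : Equiv.Perm V} (h : ∀ x y, G.Adj (a x) (a y) ↔ G.Adj x y) (n : ℤ) :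
    ∀ x y, G.Adj ((a ^ n) x) ((a ^ n) y) ↔ G.Adj x y := by
  intro x y
  obtain ⟨m, rfl | rfl⟩ := Int.eq_nat_or_neg n
  · rw [zpow_natCast]
    exact adj_pow h m x y
  · have := adj_pow h m ((a ^ (-(m : ℤ))) x) ((a ^ (-(m : ℤ))) y)
    have e : ∀ z, (a ^ m) ((a ^ (-(m : ℤ))) z) = z := by
      intro z
      rw [← Equiv.Perm.mul_apply, ← zpow_natCast, ← zpow_add]
      simp
    rw [e, e] at this
    exact this.symm

theorem dist_le_of_hom (hc : G.Connected) {b : Equiv.Perm V}
    (h : ∀ x y, G.Adj (b x) (b y) ↔ G.Adj x y) (x y : V) : G.dist (b x) (b y) ≤ G.dist x y := by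
  obtain ⟨p, hp⟩ := hc.exists_walk_length_eq_dist x y
  let f : G →g G := ⟨b, fun {x y} hxy => (h x y).2 hxy⟩
  have := SimpleGraph.dist_le (p.map f)
  rw [SimpleGraph.Walk.length_map, hp] at this
  exact this

theorem dist_perm (hc : G.Connected) {b : Equiv.Perm V}
    (h : ∀ x y, G.Adj (b x) (b y) ↔ G.Adj x y) (x y : V) : G.dist (b x) (b y) = G.dist x y := by
  refine le_antisymm (dist_le_of_hom hc h x y) ?_
  have h' : ∀ x y, G.Adj (b⁻¹ x) (b⁻¹ y) ↔ G.Adj x y := by
    intro x y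
    have := h (b⁻¹ x) (b⁻¹ y)
    simpa using this.symm
  have := dist_le_of_hom hc h' (b x) (b y)
  simpa using this

theorem isW_support {x y : V} (p : G.Walk x y) : IsW G x y p.support := by
  refine ⟨p.isChain_adj_support, ?_, ?_⟩
  · cases p <;> simp
  · rw [List.getLast?_eq_some_getLast p.support_ne_nil]
    simp

end

theorem cyl : CYLStatement := by
  intro V X a ha hc K
  have hadj := adj_zpow ha.adj
  have hsymm : ∀ x y, CY X a K x y → CY X a K y x := by
    rintro x y ⟨l, hl, hK⟩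
    exact ⟨l.reverse, H64.B.isW_rev hl, fun z hz => hK z (List.mem_reverse.mp hz)⟩
  have htrans : ∀ x y z, CY X a K x y → CY X a K y z → CY X a K x z := by
    rintro x y z ⟨l, hl, hK⟩ ⟨m, hm, hK'⟩
    refine ⟨cat l m, H64.B.isW_cat hl hm, fun v hv => ?_⟩
    rcases H64.B.mem_cat hv with h | h
    · exact hK v h
    · exact hK' v h
  have hcomm : ∀ (n : ℤ) z, a ((a ^ n) z) = (a ^ n) (a z) := by
    intro n z
    rw [← Equiv.Perm.mul_apply, ← Equiv.Perm.mul_apply]
    congr 1
    exact (Commute.refl a).zpow_right n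
  have htl : ∀ x y (n : ℤ), CY X a K x y → CY X a K ((a ^ n) x) ((a ^ n) y) := by
    rintro x y n ⟨l, hl, hK⟩
    refine ⟨l.map (a ^ n), H64.B.isW_map (a ^ n) (hadj n) hl, fun z hz => ?_⟩
    obtain ⟨w, hw, rfl⟩ := List.mem_map.mp hz
    rw [hcomm, dist_perm hc (hadj n)]
    exact hK w hw
  have hdist : ∀ x y, X.G.dist (a x) (a y) = X.G.dist x y := dist_perm hc ha.adj
  have h4 : ∀ x y (L : ℕ), X.G.dist x (a x) ≤ L → X.G.dist x y ≤ L → 3 * L ≤ K →
      CY X a K x y := by
    intro x y L h1 h2 h3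
    obtain ⟨p, hp⟩ := hc.exists_walk_length_eq_dist x y
    refine ⟨p.support, isW_support p, fun z hz => ?_⟩
    have e1 : X.G.dist x z ≤ L := by
      have := SimpleGraph.dist_le (p.takeUntil z hz)
      have := p.length_takeUntil_le_length hz
      omega
    have e2 : X.G.dist z (a z) ≤ X.G.dist z x + X.G.dist x (a z) := hc.dist_triangle
    have e3 : X.G.dist x (a z) ≤ X.G.dist x (a x) + X.G.dist (a x) (a z) := hc.dist_triangle
    rw [hdist] at e3
    rw [SimpleGraph.dist_comm] at e2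
    have e4 : X.G.dist z x = X.G.dist x z := SimpleGraph.dist_comm
    have e5 : X.G.dist (a z) z = X.G.dist z (a z) := SimpleGraph.dist_comm
    omega
  refine ⟨hsymm, htrans, htl, h4, ?_, ?_⟩
  · intro x n L h1 h3
    have hstep : CY X a K x (a x) := h4 x (a x) L h1 h1 h3
    have hnat : ∀ m : ℕ, CY X a K x ((a ^ (m : ℤ)) x) := by
      intro m
      induction m with
      | zero =>
        have : X.G.dist x x ≤ L := by simp
        simpa using h4 x x L h1 this h3
      | succ m ih =>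
        refine htrans _ _ _ ih ?_
        have := htl _ _ (m : ℤ) hstep
        have e : (a ^ (m : ℤ)) (a x) = (a ^ ((m + 1 : ℕ) : ℤ)) x := by
          push_cast
          rw [zpow_add, zpow_one, Equiv.Perm.mul_apply]
        rwa [e] at this
    obtain ⟨m, rfl | rfl⟩ := Int.eq_nat_or_neg n
    · exact hnat m
    · have := htl _ _ (-(m : ℤ)) (hsymm _ _ (hnat m))
      have e : (a ^ (-(m : ℤ))) ((a ^ (m : ℤ)) x) = x := by
        rw [← Equiv.Perm.mul_apply, ← zpow_add]
        simp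
      rwa [e] at this
  · rintro x y ⟨l, hl, hK⟩
    exact ⟨hK x (List.mem_of_head? hl.first), hK y (List.mem_of_getLast? hl.last)⟩

end MSG.H94
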