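import Pool.Agent.Lib.MP_acafa7_al.MS.Iface3

namespace MSG.H94

open Classical

/-- the centralizer of `a` in `H` -/
def cen {G : Type} [Group G] (H : Subgroup G) (a : G) : Subgroup G where
  carrier := {h | h ∈ H ∧ h * a = a * h}
  one_mem' := ⟨H.one_mem, by simp⟩
  mul_mem' := by
    rintro x y ⟨hx, hxa⟩ ⟨hy, hya⟩
    refine ⟨H.mul_mem hx hy, ?_⟩
    rw [mul_assoc, hya, ← mul_assoc, hxa, mul_assoc]
  inv_mem' := by
    rintro x ⟨hx, hxa⟩
    refine ⟨H.inv_mem hx, ?_⟩
    have : x⁻¹ * (x * a) * x⁻¹ = x⁻¹ * (a * x) * x⁻¹ := by rw [hxa]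
    simp only [inv_mul_cancel_left] at this
    rw [this]
    group

/-- the centralizer has finite index if `a` has finitely many conjugates -/
theorem cen_relIndex {G : Type} [Group G] (H : Subgroup G) (a : G) (S : Set G) (hS : S.Finite)
    (h : ∀ x ∈ H, x * a * x⁻¹ ∈ S) : (cen H a).relIndex H ≠ 0 := by
  have hfin : Finite (↥H ⧸ (cen H a).subgroupOf H) := by
    have : Finite S := hS
    let f : ↥H ⧸ (cen H a).subgroupOf H → S :=
      Quotient.lift (fun x : ↥H => (⟨(x : G) * a * (x : G)⁻¹, h _ x.2⟩ : S)) (by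
        intro x y hxy
        have h1 : x⁻¹ * y ∈ (cen H a).subgroupOf H := QuotientGroup.leftRel_apply.mp hxy
        have h2 : ((x⁻¹ * y : ↥H) : G) * a = a * ((x⁻¹ * y : ↥H) : G) :=
          (Subgroup.mem_subgroupOf.mp h1).2
        apply Subtype.ext
        change (x : G) * a * (x : G)⁻¹ = (y : G) * a * (y : G)⁻¹
        have h3 : (x : G)⁻¹ * y * a = a * ((x : G)⁻¹ * y) := by simpa using h2
        have h4 : (y : G) * a = x * a * (x : G)⁻¹ * y := by
          have : (x : G) * ((x : G)⁻¹ * y * a) = x * (a * ((x : G)⁻¹ * y)) := by rw [h3]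
          simpa [mul_assoc] using this
        rw [h4]
        simp)
    refine Finite.of_injective f ?_
    intro p q
    induction p using QuotientGroup.induction_on with
    | H x =>
    induction q using QuotientGroup.induction_on with
    | H y =>
    intro hpq
    have h1 : (x : G) * a * (x : G)⁻¹ = (y : G) * a * (y : G)⁻¹ := congrArg Subtype.val hpq
    refine QuotientGroup.eq.mpr ?_
    refine Subgroup.mem_subgroupOf.mpr ⟨(x⁻¹ * y).2, ?_⟩
    change ((x⁻¹ * y : ↥H) : G) * a = a * ((x⁻¹ * y : ↥H) : G)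
    have h2 : ((x⁻¹ * y : ↥H) : G) = (x : G)⁻¹ * y := by simp
    rw [h2]
    have h3 : (x : G)⁻¹ * ((x : G) * a * (x : G)⁻¹) * y = (x : G)⁻¹ * ((y : G) * a * (y : G)⁻¹) * y := by
      rw [h1]
    have h4 : a * ((x : G)⁻¹ * y) = (x : G)⁻¹ * y * a := by
      simpa [mul_assoc] using h3
    exact h4.symm
  exact Subgroup.index_ne_zero_of_finite

theorem vz1_mono {G : Type} [Group G] {C H : Subgroup G} (hCH : C ≤ H) (hi : C.relIndex H ≠ 0)
    (h : VZ1 C) : VZ1 H := by
  obtain ⟨a, ha, hI, h1⟩ := h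
  refine ⟨a, hCH ha, hI, ?_⟩
  have hle : Subgroup.zpowers a ≤ C := by simpa using ha
  rw [← Subgroup.relIndex_mul_relIndex _ _ _ hle hCH]
  exact mul_ne_zero h1 hi

theorem vz2_mono {G : Type} [Group G] {C H : Subgroup G} (hCH : C ≤ H) (hi : C.relIndex H ≠ 0)
    (h : VZ2 C) : VZ2 H := by
  obtain ⟨a, ha, b, hb, hI, h1⟩ := h
  refine ⟨a, hCH ha, b, hCH hb, hI, ?_⟩
  have hle : Subgroup.closure {a, b} ≤ C := by
    rw [Subgroup.closure_le]
    intro x hx
    rcases hx with rfl | hx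
    · exact ha
    · rw [Set.mem_singleton_iff] at hx
      rw [hx]
      exact hb
  rw [← Subgroup.relIndex_mul_relIndex _ _ _ hle hCH]
  exact mul_ne_zero h1 hi

theorem g3b (h1 : GSStatement) : G3BStatement := by
  intro Γ _ hPN hPB H K hsol hKH hn hK
  obtain ⟨a0, ha0, hI0, hidx⟩ := hK
  set m : ℕ := Nat.factorial ((Subgroup.zpowers a0).relIndex K) with hm
  have hmpos : 0 < m := Nat.factorial_pos _
  have hpow : ∀ x ∈ K, x ^ m ∈ Subgroup.zpowers a0 := by
    intro x hx
    refine (Subgroup.pow_mem_of_relIndex_ne_zero_of_dvd hidx hx ?_).1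
    intro k hk1 hk2
    exact Nat.dvd_factorial hk1 hk2
  set A : Subgroup Γ := Subgroup.closure {y | ∃ x ∈ K, x ^ m = y} with hA
  have hAle : A ≤ Subgroup.zpowers a0 := by
    rw [hA, Subgroup.closure_le]
    rintro y ⟨x, hx, rfl⟩
    exact hpow x hx
  obtain ⟨t, ht⟩ := (Subgroup.le_zpowers_iff a0 A).mp hAle
  set a : Γ := a0 ^ t with ha
  have haK : a ∈ K := K.pow_mem ha0 t
  have haA : a ∈ A := by rw [ht]; exact Subgroup.mem_zpowers a
  have ht0 : t ≠ 0 := by
    intro h0
    have h2 : a0 ^ m ∈ A := Subgroup.subset_closure ⟨a0, ha0, rfl⟩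
    rw [ht, ha, h0, pow_zero, Subgroup.zpowers_one_eq_bot, Subgroup.mem_bot] at h2
    have h3 := hI0 m (by simpa using h2)
    omega
  have hIa : InfO a := by
    intro n hn0
    have h2 : a0 ^ ((t : ℤ) * n) = 1 := by
      rw [zpow_mul, zpow_natCast]
      exact hn0
    have h3 := hI0 _ h2
    rcases mul_eq_zero.mp h3 with h4 | h4
    · exact absurd (by exact_mod_cast h4) ht0
    · exact h4
  have hnorm : ∀ h ∈ H, ∀ y ∈ A, h * y * h⁻¹ ∈ A := by
    intro h hh y hy
    rw [hA] at hy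
    induction hy using Subgroup.closure_induction with
    | mem y hy =>
      obtain ⟨x, hx, rfl⟩ := hy
      refine Subgroup.subset_closure ⟨h * x * h⁻¹, hn h hh x hx, ?_⟩
      rw [conj_pow]
    | one => simp
    | mul x y _ _ hx hy =>
      have : h * (x * y) * h⁻¹ = (h * x * h⁻¹) * (h * y * h⁻¹) := by group
      rw [this]
      exact A.mul_mem hx hy
    | inv x _ hx =>
      have : h * x⁻¹ * h⁻¹ = (h * x * h⁻¹)⁻¹ := by group
      rw [this]
      exact A.inv_mem hx
  have hpm : ∀ h ∈ H, h * a * h⁻¹ ∈ ({a, a⁻¹} : Set Γ) := by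
    intro h hh
    have e1 := hnorm h hh a haA
    have e2 := hnorm h⁻¹ (H.inv_mem hh) a haA
    rw [ht] at e1 e2
    obtain ⟨i, hi⟩ := Subgroup.mem_zpowers_iff.mp e1
    obtain ⟨j, hj⟩ := Subgroup.mem_zpowers_iff.mp e2
    rw [inv_inv] at hj
    have e3 : a ^ (i * j - 1) = 1 := by
      have e4 : h * (h⁻¹ * a * h) * h⁻¹ = a := by group
      rw [← hj] at e4
      have e5 : h * a ^ j * h⁻¹ = (h * a * h⁻¹) ^ j := by rw [conj_zpow]
      rw [e5, ← hi, ← zpow_mul] at e4
      rw [zpow_sub, e4, zpow_one, mul_inv_cancel]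
    have e6 : i * j = 1 := by have := hIa _ e3; omega
    rcases Int.eq_one_or_neg_one_of_mul_eq_one e6 with h7 | h7
    · left
      rw [← hi, h7, zpow_one]
    · right
      rw [Set.mem_singleton_iff, ← hi, h7, zpow_neg, zpow_one]
  have hCH : cen H a ≤ H := fun x hx => hx.1
  have hidxC : (cen H a).relIndex H ≠ 0 :=
    cen_relIndex H a _ (Set.toFinite _) hpm
  have hsolC : Group.IsSolvable (cen H a) := by
    have := hsol
    exact Group.isSolvable_of_isSolvable_injective (f := Subgroup.inclusion hCH)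
      (Subgroup.inclusion_injective hCH)
  rcases h1 Γ hPN hPB (cen H a) a hsolC ⟨hKH haK, rfl⟩ hIa (fun x hx => hx.2) with h2 | h2
  · exact Or.inl (vz1_mono hCH hidxC h2)
  · exact Or.inr (vz2_mono hCH hidxC h2)

end MSG.H94
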