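import Pool.Agent.Lib.MP_acafa7_al.MS.Iface2

namespace MSG.H94

open Classical

theorem subm : SubMStatement := by
  intro V D _ a M S hS
  have hφ : ∀ x, x ∈ S → M.φ x ∈ S := fun x hx => (hS x hx).1
  have hι : ∀ x, x ∈ S → M.ι x ∈ S := fun x hx => (hS x hx).2
  have hφ' : ∀ x, M.φ x ∈ S → x ∈ S := by
    intro x hx
    have := Equiv.Perm.perm_symm_on_of_perm_on_finite (f := M.φ) (p := fun x => x ∈ S) hφ hx
    simpa using this
  have hι' : ∀ x, M.ι x ∈ S → x ∈ S := by
    intro x hx
    have := hι _ hx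
    rwa [M.ιι] at this
  let φ' : Equiv.Perm {x // x ∈ S} := Equiv.Perm.subtypePermOfFintype M.φ hφ
  let ι' : Equiv.Perm {x // x ∈ S} := Equiv.Perm.subtypePermOfFintype M.ι hι
  have hφv : ∀ x : {x // x ∈ S}, ((φ' x : {x // x ∈ S}) : D) = M.φ x := fun x => rfl
  have hιv : ∀ x : {x // x ∈ S}, ((ι' x : {x // x ∈ S}) : D) = M.ι x := fun x => rfl
  let N : DMap {x // x ∈ S} :=
    { φ := φ'
      ι := ι'
      ιι := fun d => Subtype.ext (by rw [hιv, hιv, M.ιι])
      ne := fun d h => M.ne d (by rw [← hιv, h]) }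
  let M' : LMap V {x // x ∈ S} a :=
    { toDMap := N
      f := fun x => M.f x
      γ := fun x => M.γ x
      h := fun x => M.h x
      γι := fun d => by
        change M.γ (ι' d : {x // x ∈ S}) = - M.γ d
        rw [hιv, M.γι]
      tgt := fun d => by
        change (a ^ M.γ d) (M.f (ι' d : {x // x ∈ S})) = (a ^ M.h d) (M.f (φ' d : {x // x ∈ S}))
        rw [hιv, hφv, M.tgt] }
  refine ⟨{x // x ∈ S}, inferInstance, M', fun x => x.1, Subtype.val_injective, ?_, ?_, ?_, ?_⟩
  · intro x
    constructor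
    · rintro ⟨x', rfl⟩
      exact x'.2
    · intro hx
      exact ⟨⟨x, hx⟩, rfl⟩
  · intro x
    exact ⟨rfl, rfl, rfl, rfl, rfl⟩
  · intro x y
    constructor
    · intro h k hk
      exact h (fun d => k d.1) (fun d => hk d.1)
    · intro h k hk
      have := h (fun d => ∃ hd : d ∈ S, k ⟨d, hd⟩) (fun d => ?_)
      · constructor
        · intro hx
          obtain ⟨_, h2⟩ := this.1 ⟨x.2, hx⟩
          exact h2
        · intro hy
          obtain ⟨_, h2⟩ := this.2 ⟨y.2, hy⟩
          exact h2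
      · by_cases hd : d ∈ S
        · have e := hk ⟨d, hd⟩
          constructor
          · rintro ⟨h1, h2⟩
            exact ⟨hι d hd, e.1 h2⟩
          · rintro ⟨h1, h2⟩
            exact ⟨hφ d hd, e.2 h2⟩
        · constructor
          · rintro ⟨h1, h2⟩
            exact absurd (hφ' d h1) hd
          · rintro ⟨h1, h2⟩
            exact absurd (hι' d h1) hd
  · intro hpl k hk
    let K : D → ZMod 2 := fun d => if hd : d ∈ S then k ⟨d, hd⟩ else 0
    have hKin : ∀ x : {x // x ∈ S}, K x.1 = k x := by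
      intro x
      simp only [K]
      rw [dif_pos x.2]
    have hKout : ∀ d, d ∉ S → K d = 0 := by
      intro d hd
      simp only [K]
      rw [dif_neg hd]
    obtain ⟨h, h1, h2⟩ := hpl K (fun d => by
      by_cases hd : d ∈ S
      · have e := hk ⟨d, hd⟩
        have e1 := hKin (φ' (ι' ⟨d, hd⟩))
        have e2 := hKin (ι' ⟨d, hd⟩)
        have e3 := hKin (φ' ⟨d, hd⟩)
        have e4 := hKin ⟨d, hd⟩
        rw [hφv, hιv] at e1
        rw [hιv] at e2
        rw [hφv] at e3
        rw [e1, e2, e3, e4]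
        exact e
      · rw [hKout d hd, hKout _ (fun h => hd (hφ' d h)), hKout _ (fun h => hd (hι' d h)),
          hKout _ (fun h => hd (hι' d (hφ' _ h)))])
    refine ⟨fun x => h x.1, fun d => h1 d.1, fun d => ?_⟩
    have e := h2 d.1
    have e3 := hKin (φ' d)
    rw [hφv] at e3
    rw [e3, hKin d] at e
    exact e

end MSG.H94
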