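import Pool.Agent.Lib.MP_acafa7_al.MS.Iface1

/-! Module LinkA: Lemma 1.1 of Paper.md, two non-neighbouring ears of a short cycle of a link. -/

namespace MSG.H94

open Finset

variable {V : Type}

theorem per_mul {c : ℕ → V} {k : ℕ} (h : ∀ i, c (i + k) = c i) (n q : ℕ) :
    c (n + k * q) = c n := by
  induction q with
  | zero => simp
  | succ q ih =>
    rw [Nat.mul_succ, ← Nat.add_assoc, h, ih]

theorem mod_succ_lt {n s : ℕ} (h : n % (s + 1) < s) : (n + 1) % (s + 1) = n % (s + 1) + 1 := by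
  rw [Nat.add_mod]
  rcases Nat.eq_zero_or_pos s with h0 | h0
  · omega
  · rw [Nat.mod_eq_of_lt (show 1 < s + 1 by omega)]
    exact Nat.mod_eq_of_lt (by omega)

theorem mod_succ_eq {n s : ℕ} (h : n % (s + 1) = s) : (n + 1) % (s + 1) = 0 := by
  rw [Nat.add_mod, h]
  rcases Nat.eq_zero_or_pos s with h0 | h0
  · subst h0; rfl
  · rw [Nat.mod_eq_of_lt (show 1 < s + 1 by omega), Nat.mod_self]

/-- closing up a walk of length `s` to a cycle of length `s + 1` -/
theorem closeup (X : Cx V) (v : V) (s : ℕ) (w : ℕ → V) (hl : ∀ n, n ≤ s → X.G.Adj v (w n))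
    (ha : ∀ n, n < s → X.G.Adj (w n) (w (n + 1))) (hc : X.G.Adj (w s) (w 0))
    (hi : ∀ i j, i ≤ s → j ≤ s → w i = w j → i = j) :
    X.IsCycle v (s + 1) (fun n => w (n % (s + 1))) := by
  have hm : ∀ n, n % (s + 1) ≤ s := fun n => Nat.lt_succ_iff.mp (Nat.mod_lt _ (Nat.succ_pos _))
  refine ⟨?_, ?_, ?_, ?_⟩
  · intro i
    simp
  · intro i
    exact hl _ (hm i)
  · intro i
    rcases Nat.lt_or_ge (i % (s + 1)) s with h | h
    · simp only [mod_succ_lt h]
      exact ha _ h
    · have h' : i % (s + 1) = s := le_antisymm (hm i) h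
      simp only [mod_succ_eq h', h']
      exact hc
  · intro i j h1 h2 h3
    simp only [Nat.mod_eq_of_lt h1, Nat.mod_eq_of_lt h2] at h3
    exact hi i j (by omega) (by omega) h3

theorem closeup_sum (s : ℕ) (w : ℕ → V) (g : V → V → ℝ) :
    ∑ i ∈ range (s + 1), g (w (i % (s + 1))) (w ((i + 1) % (s + 1))) =
      ∑ i ∈ range s, g (w i) (w (i + 1)) + g (w s) (w 0) := by
  rw [sum_range_succ]
  congr 1
  · refine sum_congr rfl fun i hi => ?_
    have := mem_range.mp hi
    rw [Nat.mod_eq_of_lt (show i < s + 1 by omega), Nat.mod_eq_of_lt (show i + 1 < s + 1 by omega)]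
  · rw [Nat.mod_eq_of_lt (Nat.lt_succ_self s), Nat.mod_self]

/-- sums over a period -/
theorem sum_shift {k : ℕ} (g : ℕ → ℝ) (h : ∀ i, g (i + k) = g i) (s : ℕ) :
    ∑ n ∈ range k, g (n + s) = ∑ n ∈ range k, g n := by
  induction s with
  | zero => simp
  | succ s ih =>
    rw [← ih]
    have h1 := sum_range_succ (fun n => g (n + s)) k
    have h2 := sum_range_succ' (fun n => g (n + s)) k
    have h3 : g (k + s) = g (0 + s) := by
      rw [Nat.add_comm k s, h, Nat.zero_add]
    rw [h1] at h2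
    have h4 : ∀ n, g (n + (s + 1)) = g (n + 1 + s) := fun n => by
      congr 1; ring
    simp only [h4]
    linarith

theorem normalize (G : SimpleGraph V) {c : ℕ → V} {k : ℕ} (hk : 0 < k)
    (h : ∀ i, c (i + k) = c i) (i j : ℕ) (h1 : i + 2 ≤ j) (h2 : j + 2 ≤ i + k)
    (h3 : G.Adj (c i) (c (i + 2))) (h4 : G.Adj (c j) (c (j + 2))) :
    ∃ i j, i < k ∧ j < k ∧ i + 2 ≤ j ∧ j + 2 ≤ i + k ∧
      G.Adj (c i) (c (i + 2)) ∧ G.Adj (c j) (c (j + 2)) := by
  obtain ⟨i0, q, hi0, hq⟩ : ∃ i0 q, i0 < k ∧ i = i0 + k * q :=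
    ⟨i % k, i / k, Nat.mod_lt _ hk, (Nat.mod_add_div i k).symm⟩
  obtain ⟨j0, hj0⟩ : ∃ j0, j = j0 + k * q := ⟨j - k * q, by omega⟩
  subst hq hj0
  have e1 : c (i0 + k * q) = c i0 := per_mul h _ _
  have e2 : c (i0 + k * q + 2) = c (i0 + 2) := by
    rw [show i0 + k * q + 2 = i0 + 2 + k * q by omega]; exact per_mul h _ _
  have e3 : c (j0 + k * q) = c j0 := per_mul h _ _
  have e4 : c (j0 + k * q + 2) = c (j0 + 2) := by
    rw [show j0 + k * q + 2 = j0 + 2 + k * q by omega]; exact per_mul h _ _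
  rw [e1, e2] at h3
  rw [e3, e4] at h4
  rcases Nat.lt_or_ge j0 k with h5 | h5
  · exact ⟨i0, j0, hi0, h5, by omega, by omega, h3, h4⟩
  · obtain ⟨j1, hj1⟩ : ∃ j1, j0 = j1 + k := ⟨j0 - k, by omega⟩
    subst hj1
    rw [h, show j1 + k + 2 = j1 + 2 + k by omega, h] at h4
    exact ⟨j1, i0, by omega, hi0, by omega, by omega, h4, h3⟩

theorem main (X : Cx V) (hM : X.IsMetric) (hL : X.Large) (v : V) (m : ℕ) :
    ∀ c : ℕ → V, X.IsCycle v (m + 4) c →
      ∑ i ∈ range (m + 4), X.A v (c i) (c (i + 1)) < 2 * Real.pi →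
      ∃ i j, i < m + 4 ∧ j < m + 4 ∧ i + 2 ≤ j ∧ j + 2 ≤ i + (m + 4) ∧
        X.G.Adj (c i) (c (i + 2)) ∧ X.G.Adj (c j) (c (j + 2)) := by
  induction m with
  | zero =>
    intro c hc hs
    obtain ⟨i, hi⟩ : ∃ i, X.G.Adj (c i) (c (i + 2)) := by
      by_contra hne
      push Not at hne
      exact absurd (hL v 4 c (le_refl _) hc hne) (not_le.mpr hs)
    refine normalize X.G (by norm_num) hc.per i (i + 2) (le_refl _) (by omega) hi ?_
    have : c (i + 2 + 2) = c i := hc.per i
    rw [this]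
    exact hi.symm
  | succ m ih =>
    intro c hc hs
    obtain ⟨i0, hi0⟩ : ∃ i, X.G.Adj (c i) (c (i + 2)) := by
      by_contra hne
      push Not at hne
      exact absurd (hL v (m + 1 + 4) c (by omega) hc hne) (not_le.mpr hs)
    have hper := hc.per
    -- the shifted cycle
    have hcyc : X.IsCycle v (m + 3 + 1) (fun n => c (n % (m + 3 + 1) + (i0 + 2))) := by
      apply closeup X v (m + 3) (fun n => c (n + (i0 + 2)))
      · intro n _; exact hc.link _
      · intro n _
        have := hc.adj (n + (i0 + 2))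
        rwa [show n + (i0 + 2) + 1 = n + 1 + (i0 + 2) by omega] at this
      · have e1 : c (m + 3 + (i0 + 2)) = c i0 := by
          rw [show m + 3 + (i0 + 2) = i0 + (m + 1 + 4) by omega]; exact hper i0
        simp only [e1, Nat.zero_add]
        exact hi0
      · intro i j h1 h2 h3
        -- injectivity of the shifted sequence
        by_contra hne
        have key : ∀ a b : ℕ, a < b → b ≤ m + 3 → c (a + (i0 + 2)) ≠ c (b + (i0 + 2)) := by
          intro a b hab hb heq
          have hk : 0 < m + 1 + 4 := by omega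
          obtain ⟨a0, q, ha0, hq⟩ : ∃ a0 q, a0 < m + 1 + 4 ∧ a + (i0 + 2) = a0 + (m + 1 + 4) * q :=
            ⟨_, _, Nat.mod_lt (a + (i0 + 2)) hk, (Nat.mod_add_div _ _).symm⟩
          have hb0 : b + (i0 + 2) = a0 + (b - a) + (m + 1 + 4) * q := by omega
          rw [hq, hb0, per_mul hper, per_mul hper] at heq
          rcases Nat.lt_or_ge (a0 + (b - a)) (m + 1 + 4) with h5 | h5
          · have := hc.inj _ _ ha0 h5 heq
            omega
          · obtain ⟨b1, hb1⟩ : ∃ b1, a0 + (b - a) = b1 + (m + 1 + 4) :=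
              ⟨a0 + (b - a) - (m + 1 + 4), by omega⟩
            rw [hb1, hper] at heq
            have := hc.inj _ _ ha0 (by omega) heq
            omega
        rcases Nat.lt_or_ge i j with h4 | h4
        · exact key i j h4 h2 h3
        · exact key j i (by omega) h1 h3.symm
    have hsum : ∑ i ∈ range (m + 3 + 1), X.A v (c (i % (m + 3 + 1) + (i0 + 2)))
        (c ((i + 1) % (m + 3 + 1) + (i0 + 2))) < 2 * Real.pi := by
      rw [closeup_sum (m + 3) (fun n => c (n + (i0 + 2))) (fun x y => X.A v x y)]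
      have hsh := sum_shift (k := m + 1 + 4) (fun n => X.A v (c n) (c (n + 1)))
        (fun i => by
          show X.A v (c (i + (m + 1 + 4))) (c (i + (m + 1 + 4) + 1)) = _
          rw [hper, show i + (m + 1 + 4) + 1 = i + 1 + (m + 1 + 4) by omega, hper]) (i0 + 2)
      rw [← hsh, sum_range_succ (fun n => X.A v (c (n + (i0 + 2))) (c (n + (i0 + 2) + 1))) (m + 4),
        sum_range_succ (fun n => X.A v (c (n + (i0 + 2))) (c (n + (i0 + 2) + 1))) (m + 3)] at hs
      have e0 : c (m + 4 + (i0 + 2) + 1) = c (0 + (i0 + 2)) := by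
        rw [show m + 4 + (i0 + 2) + 1 = i0 + 2 + (m + 1 + 4) by omega, hper, Nat.zero_add]
      have e1 : c (m + 3 + (i0 + 2) + 1) = c (m + 4 + (i0 + 2)) := by
        congr 1; omega
      have e2 : c (m + 3 + (i0 + 2)) = c i0 := by
        rw [show m + 3 + (i0 + 2) = i0 + (m + 1 + 4) by omega]; exact hper i0
      have hadj1 := hc.adj (m + 3 + (i0 + 2))
      have hadj2 := hc.adj (m + 4 + (i0 + 2))
      rw [e1] at hadj1
      rw [e0] at hadj2
      have hadj3 : X.G.Adj (c (m + 3 + (i0 + 2))) (c (0 + (i0 + 2))) := by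
        rw [e2, Nat.zero_add]; exact hi0
      have hang := hM.angle v (c (m + 3 + (i0 + 2))) (c (m + 4 + (i0 + 2))) (c (0 + (i0 + 2)))
        (hc.link _) (hc.link _) (hc.link _) hadj1 hadj2 hadj3
      rw [e0, e1] at hs
      have e3 : ∑ i ∈ range (m + 3), X.A v (c (i + (i0 + 2))) (c (i + 1 + (i0 + 2))) =
          ∑ i ∈ range (m + 3), X.A v (c (i + (i0 + 2))) (c (i + (i0 + 2) + 1)) := by
        refine sum_congr rfl fun i _ => ?_
        rw [show i + 1 + (i0 + 2) = i + (i0 + 2) + 1 by omega]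
      show _ + _ < _
      rw [e3]
      linarith
    obtain ⟨i, j, h1, h2, h3, h4, h5, h6⟩ := ih _ hcyc hsum
    have e1 : i % (m + 3 + 1) = i := Nat.mod_eq_of_lt (by omega)
    have e2 : (i + 2) % (m + 3 + 1) = i + 2 := Nat.mod_eq_of_lt (by omega)
    simp only [e1, e2] at h5
    refine normalize X.G (by omega) hper (i + (i0 + 2)) (i0 + (m + 1 + 4)) (by omega) (by omega) ?_ ?_
    · rwa [show i + 2 + (i0 + 2) = i + (i0 + 2) + 2 by omega] at h5
    · rw [hper, show i0 + (m + 1 + 4) + 2 = i0 + 2 + (m + 1 + 4) by omega, hper]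
      exact hi0

theorem linka : LinkAStatement := by
  intro V X hM hL v k c hk hc hs
  obtain ⟨m, rfl⟩ : ∃ m, k = m + 4 := ⟨k - 4, by omega⟩
  exact main X hM hL v m c hc hs

end MSG.H94
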