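import Pool.Agent.Lib.MP_acafa7_al.MS.H94.LinkA

/-! Module LinkB: Lemma 1.2 of Paper.md, short closed walks in links. -/

namespace MSG.H94

open Finset

open Classical in
theorem linkb (h1 : LinkAStatement) : LinkBStatement := by
  intro V X hM hL v k u hk hper hlink hadj hs
  have hex : ∃ r, 0 < r ∧ ∃ i, u i = u (i + r) := ⟨k, by omega, 0, (hper 0).symm⟩
  obtain ⟨hr0, i, hi⟩ := Nat.find_spec hex
  have hmin : ∀ m, m < Nat.find hex → ¬ (0 < m ∧ ∃ i, u i = u (i + m)) :=
    fun m hm => Nat.find_min hex hm
  have hrk : Nat.find hex ≤ k := Nat.find_min' hex ⟨by omega, 0, (hper 0).symm⟩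
  generalize Nat.find hex = r at hr0 hi hmin hrk
  have hr1 : r ≠ 1 := by
    rintro rfl
    have := hadj i
    rw [← hi] at this
    exact X.G.loopless.irrefl _ this
  rcases Nat.lt_or_ge r 4 with h4 | h4
  · refine ⟨i, ?_⟩
    have h5 : r = 2 ∨ r = 3 := by omega
    rcases h5 with rfl | rfl
    · left; exact hi
    · right
      have := hadj (i + 2)
      rw [show i + 2 + 1 = i + 3 by omega, ← hi] at this
      exact this.symm
  · obtain ⟨s, rfl⟩ : ∃ s, r = s + 1 := ⟨r - 1, by omega⟩
    have hinj : ∀ a b : ℕ, a < b → b ≤ s → u (a + i) ≠ u (b + i) := by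
      intro a b hab hb heq
      refine hmin (b - a) (by omega) ⟨by omega, a + i, ?_⟩
      rw [heq]
      congr 1
      omega
    have hcyc : X.IsCycle v (s + 1) (fun n => u (n % (s + 1) + i)) := by
      apply closeup X v s (fun n => u (n + i))
      · intro n _; exact hlink _
      · intro n _
        have := hadj (n + i)
        rwa [show n + i + 1 = n + 1 + i by omega] at this
      · have := hadj (s + i)
        rw [show s + i + 1 = i + (s + 1) by omega, ← hi] at this
        simpa using this
      · intro a b ha hb hab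
        by_contra hne
        rcases Nat.lt_or_ge a b with h5 | h5
        · exact hinj a b h5 hb hab
        · exact hinj b a (by omega) ha hab.symm
    have hA : ∀ x y, 0 ≤ X.A v x y := fun x y => Real.arccos_nonneg _
    have hsum : ∑ n ∈ range (s + 1), X.A v (u (n % (s + 1) + i)) (u ((n + 1) % (s + 1) + i)) <
        2 * Real.pi := by
      rw [closeup_sum s (fun n => u (n + i)) (fun x y => X.A v x y)]
      have hsh := sum_shift (k := k) (fun n => X.A v (u n) (u (n + 1)))
        (fun j => by
          show X.A v (u (j + k)) (u (j + k + 1)) = _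
          rw [hper, show j + k + 1 = j + 1 + k by omega, hper]) i
      rw [← hsh] at hs
      refine lt_of_le_of_lt ?_ hs
      have hle : ∑ n ∈ range (s + 1), X.A v (u (n + i)) (u (n + i + 1)) ≤
          ∑ n ∈ range k, X.A v (u (n + i)) (u (n + i + 1)) :=
        sum_le_sum_of_subset_of_nonneg (range_subset_range.mpr hrk) (fun n _ _ => hA _ _)
      refine le_trans (le_of_eq ?_) hle
      rw [sum_range_succ]
      congr 1
      · refine sum_congr rfl fun n _ => ?_
        rw [show n + 1 + i = n + i + 1 by omega]
      · rw [show s + i + 1 = i + (s + 1) by omega, ← hi]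
        simp
    obtain ⟨p, q, hp, hq, hpq, -, h5, -⟩ := h1 V X hM hL v (s + 1) _ h4 hcyc hsum
    have e1 : p % (s + 1) = p := Nat.mod_eq_of_lt (by omega)
    have e2 : (p + 2) % (s + 1) = p + 2 := Nat.mod_eq_of_lt (by omega)
    simp only [e1, e2] at h5
    refine ⟨p + i, Or.inr ?_⟩
    rwa [show p + 2 + i = p + i + 2 by omega] at h5

end MSG.H94
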