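import Pool.Agent.Lib.MP_acafa7_al.MS.Iface3

namespace MSG.H94

open Classical

/-- power of a conjugate -/
theorem conj_pow' {G : Type} [Group G] (g x : G) (m : ℕ) : (g⁻¹ * x * g) ^ m = g⁻¹ * x ^ m * g := by
  have := conj_pow (a := g⁻¹) (b := x) (i := m)
  simpa using this

theorem g3a : G3AStatement := by
  intro Γ _ hPN H K hKH hn hK
  obtain ⟨a, ha, b, hb, hI, hidx⟩ := hK
  refine ⟨a, hKH ha, b, hKH hb, hI, ?_⟩
  have hAK : Subgroup.closure {a, b} ≤ K := by
    rw [Subgroup.closure_le]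
    intro x hx
    rcases hx with rfl | hx
    · exact ha
    · rw [Set.mem_singleton_iff] at hx
      rw [hx]
      exact hb
  refine hPN a b hI H (hAK.trans hKH) ?_
  intro g hg
  have hconj : ∀ x ∈ K, g⁻¹ * x * g ∈ K := by
    intro x hx
    have := hn g⁻¹ (H.inv_mem hg) x hx
    simpa using this
  obtain ⟨m1, h1, -, hm1⟩ := Subgroup.exists_pow_mem_of_relIndex_ne_zero hidx (hconj a ha)
  obtain ⟨m2, h2, -, hm2⟩ := Subgroup.exists_pow_mem_of_relIndex_ne_zero hidx (hconj b hb)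
  refine ⟨m1 * m2, Nat.mul_pos h1 h2, ?_, ?_⟩
  · rw [← conj_pow', pow_mul]
    exact Subgroup.pow_mem _ hm1.1 _
  · rw [← conj_pow', Nat.mul_comm, pow_mul]
    exact Subgroup.pow_mem _ hm2.1 _

end MSG.H94
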